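import Pool.Agent.H81.SQ.Targets

namespace Pool.Agent.H88.SQ

open Finset Pool.Agent.H36Sq Pool.Agent.H81.SQ
open scoped BigOperators ComplexConjugate

/-- Averages over a product are iterated averages. -/
theorem expect_pair {G : Type} [Fintype G] (F : G × G → ℝ) :
    𝔼 p : G × G, F p = 𝔼 x : G, 𝔼 y : G, F (x, y) := by
  rw [← Finset.univ_product_univ]
  exact Finset.expect_product' (s := univ) (t := univ) (f := fun x y => F (x, y))

theorem cef (h : T_CE) : T_CEF := by
  intro G _ _ _ B B' f hR hf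
  classical
  set c : G × G → Fin B.K × Fin B.K × Fin B.K × (Fin B.k → ZMod 2) := fun p => B.code p.1 p.2 with hc
  set c' : G × G → Fin B'.K × Fin B'.K × Fin B'.K × (Fin B'.k → ZMod 2) :=
    fun p => B'.code p.1 p.2 with hc'
  set g : G × G → ℝ := fun p => f p.1 p.2 with hg
  have hcc : ∀ p q : G × G, c' p = c' q → c p = c q := by
    intro p q hpq
    exact hR p.1 p.2 q.1 q.2 hpq
  have hgb : ∀ p, 0 ≤ g p ∧ g p ≤ 1 := fun p => hf p.1 p.2
  obtain ⟨h1, h2, h3, h4, h5⟩ := h (G × G) _ _ c c' g hcc hgb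
  have hce : ∀ x y, B.ce f x y = H81.SQ.ce c g (x, y) := by
    intro x y
    simp only [Fac.ce, H81.SQ.ce, hc, hg]
  have hce' : ∀ x y, B'.ce f x y = H81.SQ.ce c' g (x, y) := by
    intro x y
    simp only [Fac.ce, H81.SQ.ce, hc', hg]
  have hb : ∀ x y, 0 ≤ B.ce f x y ∧ B.ce f x y ≤ 1 := by
    intro x y
    rw [hce]; exact h1 _
  refine ⟨hb, ?_, ?_, ?_, ?_, ?_, ?_⟩
  · refine ⟨fun i j l m => if hh : ∃ p : G × G, c p = (i, j, l, m) then
      H81.SQ.ce c g hh.choose else 0, ?_, ?_⟩
    · intro i j l m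
      by_cases hh : ∃ p : G × G, c p = (i, j, l, m)
      · simp only [dif_pos hh]; exact h1 _
      · simp only [dif_neg hh]; norm_num
    · intro x y
      have hh : ∃ p : G × G, c p = (B.lam x, B.lam y, B.lam (x + y), fun i => B.M i x y) :=
        ⟨(x, y), rfl⟩
      simp only [dif_pos hh]
      rw [hce]
      exact h2 _ _ (by rw [hh.choose_spec]; rfl)
  · rw [expect_pair, expect_pair] at h3
    simp only [← hce] at h3
    exact h3
  · intro φ hφ
    have := h4 (fun p => φ p.1 p.2) (fun p q hpq => hφ _ _ _ _ hpq)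
    rw [expect_pair, expect_pair] at this
    simp only [← hce] at this
    exact this
  · rw [expect_pair, expect_pair, expect_pair] at h5
    simp only [← hce, ← hce'] at h5
    simp only [Fac.en]
    exact h5
  · exact Finset.expect_nonneg fun x _ => Finset.expect_nonneg fun y _ => sq_nonneg _
  · have hcard : 0 < Fintype.card G := Fintype.card_pos_iff.mpr ⟨0⟩
    have hne : (univ : Finset G).Nonempty := ⟨0, mem_univ _⟩
    refine Finset.expect_le hne (fun x _ => Finset.expect_le hne (fun y _ => ?_))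
    have := hb x y
    nlinarith [this.1, this.2]

end Pool.Agent.H88.SQ
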