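import Pool.Agent.H81.SQ.Targets

namespace Pool.Agent.H88.SQ

open Finset Pool.Agent.H36Sq Pool.Agent.H81.SQ
open scoped BigOperators ComplexConjugate

theorem rq (h : T_SPLIT) : T_RQ := by
  intro G _ _ _ M
  classical
  have : Fintype (G ⧸ rad M) := Fintype.ofFinite _
  obtain ⟨s, hs⟩ := LinearMap.exists_rightInverse_of_surjective (rad M).mkQ
    (by rw [Submodule.range_mkQ])
  have hs' : ∀ p, (rad M).mkQ (s p) = p := fun p => by
    have := congrArg (fun φ => φ p) hs
    simpa using this
  -- the form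
  set S : G →ₗ[ZMod 2] G →ₗ[ZMod 2] ZMod 2 := M + M.flip with hS
  have hSv : ∀ x y, S x y = M x y + M y x := fun x y => by simp [hS]
  set b : LinearMap.BilinForm (ZMod 2) (G ⧸ rad M) := S.compl₁₂ s s with hb
  have hbv : ∀ p q, b p q = M (s p) (s q) + M (s q) (s p) := fun p q => by
    simp [hb, hSv]
  obtain ⟨m, hm⟩ := h (G ⧸ rad M) b (fun p => by rw [hbv]; exact CharTwo.add_self_eq_zero _)
  have hrad : ∀ x y, x ∈ rad M → M x y + M y x = 0 := by
    intro x y hx
    have : M x y = M y x := hx y
    rw [this]; exact CharTwo.add_self_eq_zero _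
  have hdiff : ∀ x, x - s ((rad M).mkQ x) ∈ rad M := by
    intro x
    have h0 : (rad M).mkQ (x - s ((rad M).mkQ x)) = 0 := by
      rw [map_sub, hs', sub_self]
    have h1 : x - s ((rad M).mkQ x) ∈ LinearMap.ker (rad M).mkQ := LinearMap.mem_ker.mpr h0
    rw [Submodule.ker_mkQ] at h1
    exact h1
  have key : ∀ x y, M x y + M y x = b ((rad M).mkQ x) ((rad M).mkQ y) := by
    intro x y
    set x' := s ((rad M).mkQ x) with hx'
    set y' := s ((rad M).mkQ y) with hy'
    have e1 : S (x - x') y = 0 := by rw [hSv]; exact hrad _ _ (hdiff x)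
    have e2 : S x' (y - y') = 0 := by
      rw [hSv, add_comm]; exact hrad _ _ (hdiff y)
    have e1' : S x y = S x' y := by
      have := e1; rw [map_sub, LinearMap.sub_apply, sub_eq_zero] at this; exact this
    have e2' : S x' y = S x' y' := by
      have := e2; rw [map_sub, sub_eq_zero] at this; exact this
    rw [hbv, ← hSv, ← hSv, e1', e2']
  refine ⟨m.compl₁₂ (rad M).mkQ (rad M).mkQ, ?_, ?_⟩
  · intro x y
    have k1 := key x y
    rw [hm] at k1
    simp only [LinearMap.compl₁₂_apply]
    -- M x y + M y x = m a c + m c a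
    have h2 : ∀ z : ZMod 2, z + z = 0 := fun z => CharTwo.add_self_eq_zero z
    generalize m ((rad M).mkQ x) ((rad M).mkQ y) = u at *
    generalize m ((rad M).mkQ y) ((rad M).mkQ x) = w at *
    generalize M x y = p at *
    generalize M y x = q at *
    revert k1
    revert u w p q
    decide
  · intro x x' y y' hx hy
    simp only [LinearMap.compl₁₂_apply]
    have e1 : (rad M).mkQ x = (rad M).mkQ x' := by
      rw [← sub_eq_zero, ← map_sub, ← LinearMap.mem_ker, Submodule.ker_mkQ]; exact hx
    have e2 : (rad M).mkQ y = (rad M).mkQ y' := by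
      rw [← sub_eq_zero, ← map_sub, ← LinearMap.mem_ker, Submodule.ker_mkQ]; exact hy
    rw [e1, e2]

end Pool.Agent.H88.SQ
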